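import Pool.Agent.helper84.NR.SpecW

set_option autoImplicit false

/-!
# Row CXE of project NRW (MP_133bfc_co)
-/

namespace Pool.Agent.helper84.NR

open scoped Classical
open Finset

theorem CXE (hWLK : WLKW_stmt) (hVYS : VYSW_stmt) : CXE_stmt := by
  intro V F _ _ M x y J hT q hq
  obtain ⟨f₀, hf₀⟩ := Quot.exists_rep q
  obtain ⟨A₀, hA₀⟩ := M.cover x
  have h1 : ∃ e f g, OnE M.toCyc f e ∧ OnE M.toCyc g e ∧
      Quot.mk (lk M (inU M x y J)) f = q ∧ Quot.mk (lk M (inU M x y J)) g ≠ q := by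
    by_contra hcon
    push Not at hcon
    have h := M.conn {f | Quot.mk (lk M (inU M x y J)) f = q}
      (fun e f g hf hg hfq => hcon e f g hf hg hfq) f₀ A₀ hf₀
    exact hq.1 A₀ hA₀ h
  obtain ⟨e, f, g, hfe, hge, hfq, hgq⟩ := h1
  have hU : inU M x y J e := by
    by_contra hU
    have hl : lk M (inU M x y J) g f := ⟨e, hU, hge, hfe⟩
    exact hgq ((Quot.sound hl).trans hfq)
  rcases hU with hc | ⟨B, hB, k, hk, rfl⟩
  · exact ⟨e, hc, f, hfe, hfq⟩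
  · obtain ⟨k1, -, -, hgp, hh⟩ := hWLK V F M x y J hT q hq B hB k hk ⟨f, hfe, hfq⟩
    have hin : inb M x y B k1 := ⟨⟨k1, le_rfl, hgp.1⟩, hgp.2.1⟩
    obtain ⟨e', -, hcx, hh'⟩ := hVYS V F M x y J hT q hq B hB k1 hin
      (ww M y B k1) (Sym2.mem_mk_left _ _) hgp.1.2.2 hh
    exact ⟨e', hcx, hh'⟩

end Pool.Agent.helper84.NR
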